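import Pool.Agent.Helper61.RC.Base2

/-!
# Module RC-5: `y f(y* y) = f(y y*) y` and an abstract splitting lemma
-/

open scoped ENNReal NNReal Topology CStarAlgebra ComplexOrder
open Filter

noncomputable section

namespace Pool.Agent.Helper61.RC

section A
set_option linter.unusedSectionVars false
variable {M : Type*} [CStarAlgebra M] [PartialOrder M] [StarOrderedRing M]

private lemma poly_intertwine (y : M) (q : Polynomial ℝ) :
    y * Polynomial.aeval (star y * y) q = Polynomial.aeval (y * star y) q * y := by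
  induction q using Polynomial.induction_on' with
  | add p q hp hq => rw [map_add, map_add, mul_add, add_mul, hp, hq]
  | monomial n c =>
    rw [Polynomial.aeval_monomial, Polynomial.aeval_monomial, ← mul_assoc,
      ← Algebra.commutes c y, mul_assoc, mul_assoc]
    congr 1
    induction n with
    | zero => simp
    | succ n ih =>
      rw [pow_succ, ← mul_assoc, ih, pow_succ]
      simp only [mul_assoc]

private lemma spec_mem [Nontrivial M] {a : M} {R : ℝ} (hR : ‖a‖ ≤ R) {t : ℝ}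
    (ht : t ∈ spectrum ℝ a) : t ∈ Set.Icc (-R) R := by
  have h := spectrum.norm_le_norm_of_mem ht
  rw [Real.norm_eq_abs] at h
  exact abs_le.mp (h.trans hR)

-- RC-5
theorem mul_fc_star_mul (y : M) (f : ℝ → ℝ) (hf : Continuous f) :
    y * fc f (star y * y) = fc f (y * star y) * y := by
  rcases subsingleton_or_nontrivial M with hM | hM
  · exact Subsingleton.elim _ _
  have hsa1 : IsSelfAdjoint (star y * y) := IsSelfAdjoint.star_mul_self y
  have hsa2 : IsSelfAdjoint (y * star y) := IsSelfAdjoint.mul_star_self y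
  set R : ℝ := max ‖star y * y‖ ‖y * star y‖ with hR
  rw [← sub_eq_zero, ← norm_le_zero_iff]
  refine le_of_forall_pos_le_add fun ε hε => ?_
  have hpos : 0 < ε / (2 * (‖y‖ + 1)) := by positivity
  obtain ⟨q, hq⟩ := exists_polynomial_near_of_continuousOn (-R) R f hf.continuousOn _ hpos
  have key : ∀ a : M, IsSelfAdjoint a → ‖a‖ ≤ R →
      ‖fc f a - Polynomial.aeval a q‖ ≤ ε / (2 * (‖y‖ + 1)) := by
    intro a ha haR
    have h1 : fc f a - Polynomial.aeval a q = cfc (fun t => f t - q.eval t) a := by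
      rw [cfc_sub f (fun t => q.eval t) a hf.continuousOn q.continuous.continuousOn,
        cfc_polynomial q a ha]
      rfl
    rw [h1]
    refine norm_cfc_le hpos.le fun t ht => ?_
    rw [Real.norm_eq_abs, abs_sub_comm]
    exact (hq t (spec_mem haR ht)).le
  have k1 := key _ hsa1 (le_max_left _ _)
  have k2 := key _ hsa2 (le_max_right _ _)
  have hp := poly_intertwine y q
  have h2 : y * fc f (star y * y) - fc f (y * star y) * y
      = y * (fc f (star y * y) - Polynomial.aeval (star y * y) q)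
        - (fc f (y * star y) - Polynomial.aeval (y * star y) q) * y := by
    rw [mul_sub, sub_mul, hp]; abel
  rw [h2, zero_add]
  have hy := norm_nonneg y
  calc _ ≤ ‖y‖ * (ε / (2 * (‖y‖ + 1))) + (ε / (2 * (‖y‖ + 1))) * ‖y‖ := by
        refine (norm_sub_le _ _).trans (add_le_add ?_ ?_)
        · exact (norm_mul_le _ _).trans (by gcongr)
        · exact (norm_mul_le _ _).trans (by gcongr)
    _ ≤ ε := by
        have : ‖y‖ * (ε / (2 * (‖y‖ + 1))) + (ε / (2 * (‖y‖ + 1))) * ‖y‖
            = ε * (‖y‖ / (‖y‖ + 1)) := by field_simp; ring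
        rw [this]
        have h3 : ‖y‖ / (‖y‖ + 1) ≤ 1 := by rw [div_le_one (by positivity)]; linarith
        nlinarith

/-! ### Small order lemmas -/

private lemma conj_sa {a : M} (ha : IsSelfAdjoint a) {x y : M} (h : x ≤ y) :
    a * x * a ≤ a * y * a := by
  have := star_left_conjugate_le_conjugate h a
  rwa [ha.star_eq] at this

private lemma conj_sa_nonneg {a : M} (ha : IsSelfAdjoint a) {x : M} (h : 0 ≤ x) :
    0 ≤ a * x * a := by
  have := conj_sa ha h
  simpa using this

private lemma fc_sa (f : ℝ → ℝ) (a : M) : IsSelfAdjoint (fc f a) := cfc_predicate f a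

private lemma fc_mul_fc {a : M} (f g : ℝ → ℝ) (hf : Continuous f) (hg : Continuous g) :
    fc f a * fc g a = fc (fun t => f t * g t) a :=
  (cfc_mul f g a hf.continuousOn hg.continuousOn).symm

private lemma fc_nonneg' {a : M} (ha : 0 ≤ a) {f : ℝ → ℝ} (h : ∀ t, 0 ≤ t → 0 ≤ f t) :
    0 ≤ fc f a :=
  cfc_nonneg fun t ht => h t (spectrum_nonneg_of_nonneg ha ht)

private lemma fc_mono' {a : M} (ha : 0 ≤ a) {f g : ℝ → ℝ} (hf : Continuous f)
    (hg : Continuous g) (h : ∀ t, 0 ≤ t → f t ≤ g t) : fc f a ≤ fc g a :=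
  cfc_mono (fun t ht => h t (spectrum_nonneg_of_nonneg ha ht)) hf.continuousOn hg.continuousOn

private lemma fc_congr' {a : M} (ha : 0 ≤ a) {f g : ℝ → ℝ} (h : ∀ t, 0 ≤ t → f t = g t) :
    fc f a = fc g a :=
  cfc_congr fun t ht => h t (spectrum_nonneg_of_nonneg ha ht)

private lemma fc_id' {a : M} (ha : IsSelfAdjoint a) : fc (fun t => t) a = a := cfc_id' ℝ a ha

private lemma fc_one' {a : M} (ha : IsSelfAdjoint a) : fc (fun _ => 1) a = 1 :=
  cfc_const_one ℝ a ha

private lemma exists_sqrt {a : M} (ha : 0 ≤ a) :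
    ∃ s : M, 0 ≤ s ∧ IsSelfAdjoint s ∧ s * s = a := by
  refine ⟨fc Real.sqrt a, fc_nonneg' ha fun t _ => Real.sqrt_nonneg t, fc_sa _ _, ?_⟩
  rw [fc_mul_fc _ _ Real.continuous_sqrt Real.continuous_sqrt]
  rw [fc_congr' ha (g := fun t => t) (fun t ht => Real.mul_self_sqrt ht)]
  exact fc_id' (IsSelfAdjoint.of_nonneg ha)

private lemma rho_nonneg (ρ : M →ₗ[ℂ] ℂ) (hρ : ∀ a, 0 ≤ ρ (star a * a)) {x : M} (hx : 0 ≤ x) :
    0 ≤ (ρ x).re := by
  obtain ⟨s, -, hs, hss⟩ := exists_sqrt hx
  have h := hρ s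
  rw [hs.star_eq, hss] at h
  exact (Complex.nonneg_iff.mp h).1

private lemma rho_mono (ρ : M →ₗ[ℂ] ℂ) (hρ : ∀ a, 0 ≤ ρ (star a * a)) {x y : M} (h : x ≤ y) :
    (ρ x).re ≤ (ρ y).re := by
  have := rho_nonneg ρ hρ (sub_nonneg.mpr h)
  rw [map_sub, Complex.sub_re] at this
  linarith

private lemma mul_self_le_of_le_one {p : M} (hp0 : 0 ≤ p) (hp1 : p ≤ 1) : p * p ≤ p := by
  obtain ⟨s, -, hs, hss⟩ := exists_sqrt hp0
  have h := conj_sa hs hp1
  rw [mul_one, hss] at h
  have : s * p * s = p * p := by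
    rw [← hss]; simp only [mul_assoc]
  rwa [this] at h

private lemma mul_self_star_eq_zero {x : M} (h : x * star x = 0) : x = 0 := by
  exact CStarRing.mul_star_self_eq_zero_iff x |>.mp h

theorem exists_split_abstract (b z p : M) (hb : 0 ≤ b) (hz0 : 0 ≤ z) (hz1 : z ≤ 1) (hp0 : 0 ≤ p)
    (hp1 : p ≤ 1) (hpz : p * z = z) (hne : b * z ≠ 0) (δ : ℝ) (hδ : 0 < δ) :
    ∃ b₁ b₂ : M, 0 ≤ b₁ ∧ b₁ ≤ 1 ∧ 0 ≤ b₂ ∧ b₂ ≠ 0 ∧ b₁ * b₂ = 0 ∧
      (∃ C : ℝ, 0 < C ∧ b₁ + b₂ ≤ (C : ℂ) • b) ∧
      ∀ ρ : M →ₗ[ℂ] ℂ, (∀ a, 0 ≤ ρ (star a * a)) → (∀ a a', ρ (a * a') = ρ (a' * a)) →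
        (ρ (fc (ramp δ) b)).re - (ρ p).re ≤ (ρ b₁).re := by
  have hpsa : IsSelfAdjoint p := IsSelfAdjoint.of_nonneg hp0
  have hbsa : IsSelfAdjoint b := IsSelfAdjoint.of_nonneg hb
  have hzsa : IsSelfAdjoint z := IsSelfAdjoint.of_nonneg hz0
  obtain ⟨sz, hsz0, hsz, hszz⟩ := exists_sqrt hz0
  obtain ⟨sb, hsb0, hsb, hsbb⟩ := exists_sqrt hb
  -- `p sz = sz`
  have hpsz : p * sz = sz := by
    have h1 : (sz - p * sz) * star (sz - p * sz) = 0 := by
      have : star (sz - p * sz) = sz - sz * p := by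
        rw [star_sub, star_mul, hsz.star_eq, hpsa.star_eq]
      rw [this]
      have e : (sz - p * sz) * (sz - sz * p)
          = sz * sz - (sz * sz) * p - p * (sz * sz) + p * (sz * sz) * p := by noncomm_ring
      rw [e, hszz, hpz]; abel
    have := mul_self_star_eq_zero h1
    exact (sub_eq_zero.mp this).symm
  set y₀ : M := sz * sb with hy₀
  have hy₀ne : y₀ ≠ 0 := by
    intro h0
    apply hne
    have h1 : z * b = 0 := by
      rw [← hszz, ← hsbb]
      calc sz * sz * (sb * sb) = sz * (sz * sb) * sb := by noncomm_ring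
        _ = 0 := by rw [← hy₀, h0]; simp
    have h2 : star (z * b) = 0 := by rw [h1, star_zero]
    rwa [star_mul, hzsa.star_eq, hbsa.star_eq] at h2
  have hκ : 0 < ‖y₀‖ := norm_pos_iff.mpr hy₀ne
  set κ : ℝ := ‖y₀‖ with hκdef
  set y : M := κ⁻¹ • y₀ with hy
  have hynorm : ‖y‖ = 1 := by
    rw [hy, norm_smul, Real.norm_of_nonneg (inv_nonneg.mpr hκ.le), ← hκdef,
      inv_mul_cancel₀ hκ.ne']
  have hstary : star y = κ⁻¹ • star y₀ := by rw [hy, star_smul]; simp
  have hstary₀ : star y₀ = sb * sz := by rw [hy₀, star_mul, hsz.star_eq, hsb.star_eq]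
  set c : M := star y * y with hc
  set d : M := y * star y with hd
  have hc0 : 0 ≤ c := star_mul_self_nonneg y
  have hd0 : 0 ≤ d := mul_star_self_nonneg y
  have hcsa : IsSelfAdjoint c := IsSelfAdjoint.of_nonneg hc0
  have hdsa : IsSelfAdjoint d := IsSelfAdjoint.of_nonneg hd0
  have hcnorm : ‖c‖ = 1 := by
    rw [hc, CStarRing.norm_star_mul_self, hynorm, one_mul]
  have hc_eq : c = (κ⁻¹ * κ⁻¹) • (sb * z * sb) := by
    rw [hc, hstary, hy, hstary₀, hy₀, smul_mul_smul_comm, ← hszz]
    simp only [mul_assoc]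
  have hd_eq : d = (κ⁻¹ * κ⁻¹) • (sz * b * sz) := by
    rw [hd, hstary, hy, hstary₀, hy₀, smul_mul_smul_comm, ← hsbb]
    simp only [mul_assoc]
  -- scalar functions
  let k : ℝ → ℝ := fun t => (max t (1 / 2))⁻¹
  let q0 : ℝ → ℝ := fun t => t * k t
  let g : ℝ → ℝ := fun t => max (t - 1 / 2) 0
  let k3 : ℝ → ℝ := fun t => k t * (2 - q0 t)
  let ψ : ℝ → ℝ := fun t => 2 * q0 t - q0 t * q0 t
  have hmax : ∀ t : ℝ, 0 < max t (1 / 2) := fun t => lt_max_of_lt_right (by norm_num)
  have hk : Continuous k := by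
    refine Continuous.inv₀ (by fun_prop) fun t => (hmax t).ne'
  have hq0c : Continuous q0 := by fun_prop
  have hgc : Continuous g := by fun_prop
  have hk3c : Continuous k3 := by fun_prop
  have hψc : Continuous ψ := by fun_prop
  have hq0_0 : ∀ t, 0 ≤ t → 0 ≤ q0 t := fun t ht =>
    mul_nonneg ht (inv_nonneg.mpr (hmax t).le)
  have hq0_1 : ∀ t, 0 ≤ t → q0 t ≤ 1 := fun t ht => by
    show t * (max t (1 / 2))⁻¹ ≤ 1
    rw [← div_eq_mul_inv, div_le_one (hmax t)]
    exact le_max_left _ _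
  set q : M := fc q0 c with hq
  set b₂ : M := fc g c with hb₂
  set r : M := fc (ramp δ) b with hr
  have hqsa : IsSelfAdjoint q := fc_sa _ _
  have h1q : IsSelfAdjoint (1 - q) := (IsSelfAdjoint.one M).sub hqsa
  have hramp : Continuous (ramp δ) := by
    unfold ramp
    fun_prop
  have hr0 : 0 ≤ r := fc_nonneg' hb fun t _ => by
    unfold ramp
    exact le_min zero_le_one (div_nonneg (le_max_left _ _) hδ.le)
  have hr1 : r ≤ 1 := by
    have := fc_mono' hb hramp (g := fun _ => 1) continuous_const fun t _ => by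
      unfold ramp
      exact min_le_left _ _
    rwa [fc_one' hbsa] at this
  have hrb : r ≤ δ⁻¹ • b := by
    have h1 : fc (fun t => δ⁻¹ * t) b = δ⁻¹ • b := by
      have := cfc_const_mul_id (R := ℝ) δ⁻¹ b hbsa
      exact this
    rw [← h1]
    refine fc_mono' hb hramp (by fun_prop) fun t ht => ?_
    unfold ramp
    refine (min_le_right _ _).trans ?_
    rw [max_eq_right ht, div_eq_inv_mul]
  have hone : fc (fun _ => (1 : ℝ)) c = 1 := fc_one' hcsa
  have h1q_eq : 1 - q = fc (fun t => 1 - q0 t) c := by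
    rw [hq, ← hone]
    exact (cfc_sub (fun _ => (1 : ℝ)) q0 c continuous_const.continuousOn
      hq0c.continuousOn).symm
  have h1q_sq : (1 - q) * (1 - q) = fc (fun t => (1 - q0 t) * (1 - q0 t)) c := by
    rw [h1q_eq, fc_mul_fc _ _ (by fun_prop) (by fun_prop)]
  have hb1_le : (1 - q) * (1 - q) ≤ 1 := by
    rw [h1q_sq, ← hone]
    refine fc_mono' hc0 (by fun_prop) continuous_const fun t ht => ?_
    have h1 := hq0_0 t ht
    have h2 := hq0_1 t ht
    nlinarith
  -- `(1-q) b₂ = 0`
  have hqb₂ : (1 - q) * b₂ = 0 := by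
    rw [h1q_eq, hb₂, fc_mul_fc _ _ (by fun_prop) hgc]
    have : (fun t => (1 - q0 t) * g t) = fun _ => (0 : ℝ) := by
      funext t
      rcases le_total t (1 / 2) with ht | ht
      · have : g t = 0 := max_eq_right (by linarith)
        rw [this, mul_zero]
      · have : q0 t = 1 := by
          show t * (max t (1 / 2))⁻¹ = 1
          rw [max_eq_left ht, mul_inv_cancel₀]
          linarith [ht, (by norm_num : (0 : ℝ) < 1 / 2)]
        rw [this, sub_self, zero_mul]
    rw [this]
    exact cfc_const_zero ℝ c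
  have hb₂0 : 0 ≤ b₂ := fc_nonneg' hc0 fun t _ => le_max_right _ _
  have hb₂ne : b₂ ≠ 0 := by
    intro h0
    have h1 : c - b₂ = fc (fun t => t - g t) c := by
      rw [hb₂]
      nth_rewrite 1 [← fc_id' hcsa]
      exact (cfc_sub (fun t => t) g c continuous_id.continuousOn hgc.continuousOn).symm
    have h2 : ‖c - b₂‖ ≤ 1 / 2 := by
      rw [h1]
      refine norm_cfc_le (by norm_num) fun t ht => ?_
      have ht0 := spectrum_nonneg_of_nonneg hc0 ht
      rw [Real.norm_eq_abs, abs_le]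
      rcases le_total t (1 / 2) with h | h
      · have : g t = 0 := max_eq_right (by linarith)
        rw [this]; constructor <;> linarith
      · have : g t = t - 1 / 2 := max_eq_left (by linarith)
        rw [this]; constructor <;> linarith
    rw [h0, sub_zero, hcnorm] at h2
    norm_num at h2
  refine ⟨(1 - q) * r * (1 - q), b₂, conj_sa_nonneg h1q hr0, ?_, hb₂0, hb₂ne, ?_, ?_, ?_⟩
  · refine (conj_sa h1q hr1).trans ?_
    rwa [mul_one]
  · rw [mul_assoc, hqb₂, mul_zero]
  · -- the bound by a multiple of `b`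
    have hq_eq : q = c * fc k c := by
      rw [hq]
      nth_rewrite 2 [← fc_id' hcsa]
      rw [fc_mul_fc _ _ continuous_id' hk]
    set Z : M := 1 - (κ⁻¹ * κ⁻¹) • (z * sb * fc k c * sb) with hZ
    have hZsb : (1 - q) * sb = sb * Z := by
      rw [hq_eq, hc_eq, hZ, sub_mul, one_mul, mul_sub, mul_one, smul_mul_assoc,
        smul_mul_assoc, mul_smul_comm, ← hc_eq]
      simp only [mul_assoc]
    have hZle : Z * star Z ≤ ‖Z * star Z‖ • (1 : M) := by
      have h1 := IsSelfAdjoint.le_algebraMap_norm_self (IsSelfAdjoint.mul_star_self Z)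
      rwa [Algebra.algebraMap_eq_smul_one] at h1
    have hbb : (1 - q) * b * (1 - q) ≤ ‖Z * star Z‖ • b := by
      have h1 : (1 - q) * b * (1 - q) = sb * (Z * star Z) * sb := by
        have h2 : star ((1 - q) * sb) = star Z * sb := by
          rw [hZsb, star_mul, hsb.star_eq]
        have h3 : star ((1 - q) * sb) = sb * (1 - q) := by
          rw [star_mul, hsb.star_eq, h1q.star_eq]
        calc (1 - q) * b * (1 - q) = ((1 - q) * sb) * (sb * (1 - q)) := by
              rw [← hsbb]; simp only [mul_assoc]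
          _ = (sb * Z) * (star Z * sb) := by rw [← h3, h2, hZsb]
          _ = _ := by simp only [mul_assoc]
      rw [h1]
      refine (conj_sa hsb hZle).trans (le_of_eq ?_)
      rw [mul_smul_comm, smul_mul_assoc, mul_one, hsbb]
    have hb1C : (1 - q) * r * (1 - q) ≤ (δ⁻¹ * ‖Z * star Z‖) • b := by
      refine (conj_sa h1q hrb).trans ?_
      rw [mul_smul_comm, smul_mul_assoc, mul_smul]
      exact smul_le_smul_of_nonneg_left hbb (inv_nonneg.mpr hδ.le)
    have hb2C : b₂ ≤ (κ⁻¹ * κ⁻¹) • b := by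
      have h1 : b₂ ≤ c := by
        have h2 : fc g c ≤ fc (fun t => t) c :=
          fc_mono' hc0 hgc continuous_id' fun t ht => max_le (by linarith) ht
        rwa [fc_id' hcsa] at h2
      refine h1.trans ?_
      rw [hc_eq]
      refine smul_le_smul_of_nonneg_left ?_ (by positivity)
      have := conj_sa hsb hz1
      rwa [mul_one, hsbb] at this
    refine ⟨δ⁻¹ * ‖Z * star Z‖ + κ⁻¹ * κ⁻¹, ?_, ?_⟩
    · have : 0 ≤ δ⁻¹ * ‖Z * star Z‖ := by positivity
      have : 0 < κ⁻¹ * κ⁻¹ := by positivity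
      linarith
    · rw [Complex.coe_smul, add_smul]
      exact add_le_add hb1C hb2C
  · intro ρ hρ hcomm
    -- trace estimate
    have hψ0 : ∀ t, 0 ≤ t → 0 ≤ ψ t := fun t ht => by
      have h1 := hq0_0 t ht
      have h2 := hq0_1 t ht
      show 0 ≤ 2 * q0 t - q0 t * q0 t
      nlinarith
    have hψ1 : ∀ t, ψ t ≤ 1 := fun t => by
      show 2 * q0 t - q0 t * q0 t ≤ 1
      nlinarith [sq_nonneg (q0 t - 1)]
    have hψk : ∀ t, ψ t = k3 t * t := fun t => by
      show 2 * q0 t - q0 t * q0 t = k t * (2 - q0 t) * t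
      have : q0 t = t * k t := rfl
      rw [this]; ring
    have hψeq : (1 - q) * (1 - q) = 1 - fc ψ c := by
      rw [h1q_sq]
      have h1 : (1 : M) - fc ψ c = fc (fun t => 1 - ψ t) c := by
        rw [← hone]
        exact (cfc_sub (fun _ => (1 : ℝ)) ψ c continuous_const.continuousOn
          hψc.continuousOn).symm
      rw [h1]
      congr 1
      funext t
      show (1 - q0 t) * (1 - q0 t) = 1 - (2 * q0 t - q0 t * q0 t)
      ring
    have hψfac : ∀ a : M, IsSelfAdjoint a → fc ψ a = fc k3 a * a := by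
      intro a ha
      nth_rewrite 3 [← fc_id' ha]
      rw [fc_mul_fc _ _ hk3c continuous_id']
      congr 1
      funext t
      exact hψk t
    have e1 : ρ ((1 - q) * r * (1 - q)) = ρ r - ρ (fc ψ c * r) := by
      rw [hcomm, ← mul_assoc, hψeq, sub_mul, one_mul, map_sub]
    obtain ⟨e, he0, hesa, hee⟩ := exists_sqrt (fc_nonneg' hc0 (f := ψ) hψ0)
    have e2 : ρ (fc ψ c * r) = ρ (e * r * e) := by
      rw [← hee, mul_assoc, hcomm e (e * r)]
    have e3 : (ρ (e * r * e)).re ≤ (ρ (fc ψ c)).re := by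
      refine rho_mono ρ hρ ?_
      have := conj_sa hesa hr1
      rwa [mul_one, hee] at this
    have e4 : ρ (fc ψ c) = ρ (fc ψ d) := by
      rw [hψfac c hcsa, hψfac d hdsa, hcomm]
      rw [hc, mul_assoc, mul_fc_star_mul y k3 hk3c, hcomm, mul_assoc]
    have hpd : p * d = d := by
      rw [hd_eq, mul_smul_comm, ← mul_assoc, ← mul_assoc, hpsz]
    have hpw : p * fc ψ d = fc ψ d := by
      have h1 : fc ψ d = d * fc k3 d := by
        rw [hψfac d hdsa]
        nth_rewrite 2 [← fc_id' hdsa]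
        nth_rewrite 3 [← fc_id' hdsa]
        rw [fc_mul_fc _ _ hk3c continuous_id', fc_mul_fc _ _ continuous_id' hk3c]
        congr 1
        funext t
        exact mul_comm _ _
      rw [h1, ← mul_assoc, hpd]
    have hwp : fc ψ d * p = fc ψ d := by
      have := congrArg star hpw
      rwa [star_mul, (fc_sa ψ d).star_eq, hpsa.star_eq] at this
    have hw1 : fc ψ d ≤ 1 := by
      rw [← fc_one' hdsa]
      exact fc_mono' hd0 hψc continuous_const fun t _ => hψ1 t
    have hwle : fc ψ d ≤ p := by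
      have h1 := conj_sa hpsa hw1
      rw [hpw, hwp, mul_one] at h1
      exact h1.trans (mul_self_le_of_le_one hp0 hp1)
    have e5 := rho_mono ρ hρ hwle
    rw [e1, Complex.sub_re, e2]
    rw [e4] at e3
    linarith

end A

end Pool.Agent.Helper61.RC
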